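import Pool.Agent.H87.SN.Targets

/-!
# Stationarity for fields of class `C^1` (row ST1)
-/

set_option autoImplicit false

namespace Pool.Agent.H45.SN

open Pool.Agent.H87.SN
open MeasureTheory Metric Set Filter Topology
open scoped ContDiff RealInnerProductSpace Convolution

/-- mollification of a field of class `C^1` -/
theorem exists_mollification (n : ℕ) (X : E n → E n) (hX : ContDiff ℝ 1 X)
    (hXc : HasCompactSupport X) (hXs : tsupport X ⊆ ball 0 2) (ε : ℝ) (hε : 0 < ε) :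
    ∃ Y : E n → E n, IsTest Y ∧ ∀ x, ‖fderiv ℝ X x - fderiv ℝ Y x‖ ≤ ε := by
  obtain ⟨δ, hδ, hδs⟩ := hXc.isCompact.exists_cthickening_subset_open isOpen_ball hXs
  have hDc : Continuous (fderiv ℝ X) := hX.continuous_fderiv one_ne_zero
  have hDX : HasCompactSupport (fderiv ℝ X) := hXc.fderiv ℝ
  have hu : UniformContinuous (fderiv ℝ X) := hDX.uniformContinuous_of_continuous hDc
  obtain ⟨η, hη, hηs⟩ := Metric.uniformContinuous_iff.1 hu ε hε
  obtain ⟨ρ, hρ, hρδ, hρη⟩ : ∃ ρ : ℝ, 0 < ρ ∧ ρ ≤ δ ∧ ρ ≤ η :=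
    ⟨min δ η, lt_min hδ hη, min_le_left _ _, min_le_right _ _⟩
  let φ : ContDiffBump (0 : E n) := ⟨ρ / 2, ρ, half_pos hρ, half_lt_self hρ⟩
  have hφr : φ.rOut = ρ := rfl
  let Y : E n → E n := φ.normed volume ⋆[ContinuousLinearMap.lsmul ℝ ℝ, volume] X
  have hYd : ContDiff ℝ ∞ Y :=
    φ.hasCompactSupport_normed.contDiff_convolution_left _ φ.contDiff_normed
      hX.continuous.locallyIntegrable
  have hYs : Function.support Y ⊆ cthickening δ (tsupport X) := by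
    intro x hx
    obtain ⟨a, ha, b, hb, rfl⟩ := support_convolution_subset (ContinuousLinearMap.lsmul ℝ ℝ) hx
    rw [φ.support_normed_eq, hφr, mem_ball_zero_iff] at ha
    have hb' : b ∈ tsupport X := subset_tsupport _ hb
    apply mem_cthickening_of_dist_le _ b _ _ hb'
    rw [dist_eq_norm, add_sub_cancel_right]
    exact ha.le.trans hρδ
  have hYt : tsupport Y ⊆ cthickening δ (tsupport X) :=
    closure_minimal hYs isClosed_cthickening
  refine ⟨Y, ⟨hYd, ?_, hYt.trans hδs⟩, ?_⟩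
  · exact HasCompactSupport.convolution _ φ.hasCompactSupport_normed hXc
  · intro x
    have h1 : HasFDerivAt Y
        ((φ.normed volume ⋆[(ContinuousLinearMap.lsmul ℝ ℝ : ℝ →L[ℝ] E n →L[ℝ] E n).precompR (E n),
          volume] fderiv ℝ X) x) x :=
      hXc.hasFDerivAt_convolution_right _ φ.continuous_normed.locallyIntegrable hX x
    have h2 : (φ.normed volume ⋆[(ContinuousLinearMap.lsmul ℝ ℝ :
        ℝ →L[ℝ] E n →L[ℝ] E n).precompR (E n), volume] fderiv ℝ X) x =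
        (φ.normed volume ⋆[ContinuousLinearMap.lsmul ℝ ℝ, volume] fderiv ℝ X) x := by
      rw [convolution_def, convolution_def]
      apply integral_congr_ae
      filter_upwards with t
      rfl
    have h3 := φ.dist_normed_convolution_le (μ := volume) (x₀ := x) (ε := ε)
      hDc.aestronglyMeasurable (g := fderiv ℝ X) (by
        intro y hy
        rw [hφr, mem_ball] at hy
        exact (hηs (hy.trans_le hρη)).le)
    rw [h1.fderiv, h2, ← dist_eq_norm, dist_comm]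
    exact h3

theorem norm_bv {n : ℕ} (i : Fin n) : ‖(bv i : E n)‖ = 1 := by
  unfold bv
  rw [PiLp.norm_single]
  norm_num

theorem abs_coord_le {n : ℕ} (D : E n →L[ℝ] E n) (i j : Fin n) : |(D (bv i)) j| ≤ ‖D‖ := by
  have h1 : ‖(D (bv i)) j‖ ≤ ‖D (bv i)‖ := PiLp.norm_apply_le _ _
  have h2 : ‖D (bv i)‖ ≤ ‖D‖ * ‖(bv i : E n)‖ := D.le_opNorm _
  rw [norm_bv, mul_one] at h2
  rw [← Real.norm_eq_abs]
  exact h1.trans h2

theorem statF_bound {n m : ℕ} (L : E n →L[ℝ] E m) (D : E n →L[ℝ] E n) :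
    |statF L D| ≤ (3 * (n : ℝ) ^ 2) * (‖L‖ ^ 2 * ‖D‖) := by
  have hLi : ∀ i : Fin n, ‖L (bv i)‖ ≤ ‖L‖ := by
    intro i
    have h2 : ‖L (bv i)‖ ≤ ‖L‖ * ‖(bv i : E n)‖ := L.le_opNorm _
    rwa [norm_bv, mul_one] at h2
  have hL0 := norm_nonneg L
  have hD0 := norm_nonneg D
  have h1 : |nsq L| ≤ n * ‖L‖ ^ 2 := by
    unfold nsq
    rw [abs_of_nonneg (Finset.sum_nonneg fun i _ => sq_nonneg _)]
    calc ∑ i : Fin n, ‖L (bv i)‖ ^ 2 ≤ ∑ _i : Fin n, ‖L‖ ^ 2 :=
          Finset.sum_le_sum fun i _ => pow_le_pow_left₀ (norm_nonneg _) (hLi i) 2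
      _ = n * ‖L‖ ^ 2 := by
          rw [Finset.sum_const, Finset.card_univ, Fintype.card_fin, nsmul_eq_mul]
  have h2 : |∑ i : Fin n, (D (bv i)) i| ≤ n * ‖D‖ := by
    calc |∑ i : Fin n, (D (bv i)) i| ≤ ∑ i : Fin n, |(D (bv i)) i| :=
          Finset.abs_sum_le_sum_abs _ _
      _ ≤ ∑ _i : Fin n, ‖D‖ := Finset.sum_le_sum fun i _ => abs_coord_le D i i
      _ = n * ‖D‖ := by
          rw [Finset.sum_const, Finset.card_univ, Fintype.card_fin, nsmul_eq_mul]
  have h3 : |∑ i : Fin n, ∑ j : Fin n, ⟪L (bv i), L (bv j)⟫ * (D (bv i)) j| ≤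
      n * (n * (‖L‖ ^ 2 * ‖D‖)) := by
    calc |∑ i : Fin n, ∑ j : Fin n, ⟪L (bv i), L (bv j)⟫ * (D (bv i)) j|
        ≤ ∑ i : Fin n, |∑ j : Fin n, ⟪L (bv i), L (bv j)⟫ * (D (bv i)) j| :=
          Finset.abs_sum_le_sum_abs _ _
      _ ≤ ∑ i : Fin n, ∑ j : Fin n, |⟪L (bv i), L (bv j)⟫ * (D (bv i)) j| :=
          Finset.sum_le_sum fun i _ => Finset.abs_sum_le_sum_abs _ _
      _ ≤ ∑ _i : Fin n, ∑ _j : Fin n, ‖L‖ ^ 2 * ‖D‖ := by
          apply Finset.sum_le_sum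
          intro i _
          apply Finset.sum_le_sum
          intro j _
          rw [abs_mul]
          apply mul_le_mul _ (abs_coord_le D i j) (abs_nonneg _) (by positivity)
          calc |⟪L (bv i), L (bv j)⟫| ≤ ‖L (bv i)‖ * ‖L (bv j)‖ := abs_real_inner_le_norm _ _
            _ ≤ ‖L‖ * ‖L‖ := mul_le_mul (hLi i) (hLi j) (norm_nonneg _) hL0
            _ = ‖L‖ ^ 2 := by ring
      _ = n * (n * (‖L‖ ^ 2 * ‖D‖)) := by
          simp only [Finset.sum_const, Finset.card_univ, Fintype.card_fin, nsmul_eq_mul]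
  unfold statF
  calc |nsq L * ∑ i : Fin n, (D (bv i)) i
        - 2 * ∑ i : Fin n, ∑ j : Fin n, ⟪L (bv i), L (bv j)⟫ * (D (bv i)) j|
      ≤ |nsq L * ∑ i : Fin n, (D (bv i)) i| +
        |2 * ∑ i : Fin n, ∑ j : Fin n, ⟪L (bv i), L (bv j)⟫ * (D (bv i)) j| := abs_sub _ _
    _ ≤ (n * ‖L‖ ^ 2) * (n * ‖D‖) + 2 * (n * (n * (‖L‖ ^ 2 * ‖D‖))) := by
        rw [abs_mul, abs_mul, abs_two]
        apply add_le_add
        · exact mul_le_mul h1 h2 (abs_nonneg _) (by positivity)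
        · exact mul_le_mul_of_nonneg_left h3 (by norm_num)
    _ = (3 * (n : ℝ) ^ 2) * (‖L‖ ^ 2 * ‖D‖) := by ring

theorem statF_sub {n m : ℕ} (L : E n →L[ℝ] E m) (D D' : E n →L[ℝ] E n) :
    statF L (D - D') = statF L D - statF L D' := by
  unfold statF
  have h1 : ∑ i : Fin n, ((D - D') (bv i)) i =
      ∑ i : Fin n, (D (bv i)) i - ∑ i : Fin n, (D' (bv i)) i := by
    rw [← Finset.sum_sub_distrib]
    rfl
  have h2 : ∑ i : Fin n, ∑ j : Fin n, ⟪L (bv i), L (bv j)⟫ * ((D - D') (bv i)) j =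
      ∑ i : Fin n, ∑ j : Fin n, ⟪L (bv i), L (bv j)⟫ * (D (bv i)) j -
      ∑ i : Fin n, ∑ j : Fin n, ⟪L (bv i), L (bv j)⟫ * (D' (bv i)) j := by
    rw [← Finset.sum_sub_distrib]
    apply Finset.sum_congr rfl
    intro i _
    rw [← Finset.sum_sub_distrib]
    apply Finset.sum_congr rfl
    intro j _
    rw [← mul_sub]
    rfl
  rw [h1, h2]
  ring

theorem statF_continuous {n m : ℕ} :
    Continuous (fun p : (E n →L[ℝ] E m) × (E n →L[ℝ] E n) => statF p.1 p.2) := by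
  unfold statF nsq
  fun_prop

/-- integrability -/
theorem statF_integrable {n m : ℕ} (G : E n → E n →L[ℝ] E m)
    (hG : MemLp G 2 (volume.restrict (ball (0 : E n) 2))) (D : E n → E n →L[ℝ] E n)
    (hD : Continuous D) (c : ℝ) (hc : ∀ x, ‖D x‖ ≤ c) :
    Integrable (fun x => statF (G x) (D x)) (volume.restrict (ball (0 : E n) 2)) := by
  have h1 : Integrable (fun x => ‖G x‖ ^ 2) (volume.restrict (ball (0 : E n) 2)) :=
    (memLp_two_iff_integrable_sq_norm hG.1).1 hG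
  have h3 : AEStronglyMeasurable (fun x => (G x, D x)) (volume.restrict (ball (0 : E n) 2)) :=
    AEStronglyMeasurable.prodMk hG.1 hD.aestronglyMeasurable
  have h2 : AEStronglyMeasurable (fun x => statF (G x) (D x))
      (volume.restrict (ball (0 : E n) 2)) :=
    Continuous.comp_aestronglyMeasurable (f := fun x => (G x, D x)) statF_continuous h3
  apply Integrable.mono' (h1.const_mul (3 * (n : ℝ) ^ 2 * c)) h2
  filter_upwards with x
  rw [Real.norm_eq_abs]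
  calc |statF (G x) (D x)| ≤ (3 * (n : ℝ) ^ 2) * (‖G x‖ ^ 2 * ‖D x‖) := statF_bound _ _
    _ ≤ (3 * (n : ℝ) ^ 2) * (‖G x‖ ^ 2 * c) := by
        gcongr
        exact hc x
    _ = 3 * (n : ℝ) ^ 2 * c * ‖G x‖ ^ 2 := by ring

/-- the integral is over the ball -/
theorem statF_integral_eq {n m : ℕ} (G : E n → E n →L[ℝ] E m) (X : E n → E n)
    (hXs : tsupport X ⊆ ball 0 2) :
    ∫ x, statF (G x) (fderiv ℝ X x) = ∫ x in ball (0 : E n) 2, statF (G x) (fderiv ℝ X x) := by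
  symm
  apply setIntegral_eq_integral_of_forall_compl_eq_zero
  intro x hx
  have h1 : fderiv ℝ X x = 0 := by
    by_contra h
    exact hx (hXs (support_fderiv_subset ℝ h))
  rw [h1]
  unfold statF
  simp

theorem pf_ST1 : T_ST1 := by
  intro n m G hG hst X hX hXc hXs
  have hI0 : (0 : ℝ) ≤ ∫ x in ball (0 : E n) 2, ‖G x‖ ^ 2 :=
    integral_nonneg fun x => sq_nonneg _
  have h1 : Integrable (fun x => ‖G x‖ ^ 2) (volume.restrict (ball (0 : E n) 2)) :=
    (memLp_two_iff_integrable_sq_norm hG.1).1 hG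
  have hbd : ∀ Z : E n → E n, ContDiff ℝ 1 Z → HasCompactSupport Z → ∃ c, ∀ x, ‖fderiv ℝ Z x‖ ≤ c := by
    intro Z hZ hZc
    exact (hZ.continuous_fderiv one_ne_zero).bounded_above_of_compact_support (hZc.fderiv ℝ)
  have hkey : ∀ ε : ℝ, 0 < ε → |∫ x, statF (G x) (fderiv ℝ X x)| ≤
      ε * ((3 * (n : ℝ) ^ 2) * ∫ x in ball (0 : E n) 2, ‖G x‖ ^ 2) := by
    intro ε hε
    obtain ⟨Y, hY, hYX⟩ := exists_mollification n X hX hXc hXs ε hε
    have hY1 : ContDiff ℝ 1 Y := hY.1.of_le (by exact_mod_cast le_top)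
    obtain ⟨c, hc⟩ := hbd X hX hXc
    obtain ⟨c', hc'⟩ := hbd Y hY1 hY.2.1
    have hiX := statF_integrable G hG (fderiv ℝ X) (hX.continuous_fderiv one_ne_zero) c hc
    have hiY := statF_integrable G hG (fderiv ℝ Y) (hY1.continuous_fderiv one_ne_zero) c' hc'
    have h2 : ∫ x in ball (0 : E n) 2, statF (G x) (fderiv ℝ Y x) = 0 := by
      rw [← statF_integral_eq G Y hY.2.2]
      exact hst Y hY
    have h3 : ∫ x, statF (G x) (fderiv ℝ X x) =
        ∫ x in ball (0 : E n) 2, statF (G x) (fderiv ℝ X x - fderiv ℝ Y x) := by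
      rw [statF_integral_eq G X hXs]
      simp_rw [statF_sub]
      rw [integral_sub hiX hiY, h2, sub_zero]
    rw [h3, ← Real.norm_eq_abs]
    calc ‖∫ x in ball (0 : E n) 2, statF (G x) (fderiv ℝ X x - fderiv ℝ Y x)‖
        ≤ ∫ x in ball (0 : E n) 2, (ε * (3 * (n : ℝ) ^ 2)) * ‖G x‖ ^ 2 := by
          apply norm_integral_le_of_norm_le (h1.const_mul _)
          filter_upwards with x
          rw [Real.norm_eq_abs]
          calc |statF (G x) (fderiv ℝ X x - fderiv ℝ Y x)|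
              ≤ (3 * (n : ℝ) ^ 2) * (‖G x‖ ^ 2 * ‖fderiv ℝ X x - fderiv ℝ Y x‖) :=
                statF_bound _ _
            _ ≤ (3 * (n : ℝ) ^ 2) * (‖G x‖ ^ 2 * ε) := by
                gcongr
                exact hYX x
            _ = _ := by ring
      _ = _ := by
          rw [integral_const_mul]
          ring
  obtain ⟨B, hB⟩ : ∃ B, B = (3 * (n : ℝ) ^ 2) * ∫ x in ball (0 : E n) 2, ‖G x‖ ^ 2 := ⟨_, rfl⟩
  have hB0 : 0 ≤ B := by
    rw [hB]
    positivity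
  rw [← hB] at hkey
  by_contra hne
  have h4 : 0 < |∫ x, statF (G x) (fderiv ℝ X x)| := abs_pos.2 hne
  have h5 := hkey (|∫ x, statF (G x) (fderiv ℝ X x)| / (2 * (B + 1))) (by positivity)
  have h6 : |∫ x, statF (G x) (fderiv ℝ X x)| / (2 * (B + 1)) * B <
      |∫ x, statF (G x) (fderiv ℝ X x)| := by
    rw [div_mul_eq_mul_div, div_lt_iff₀ (by positivity)]
    nlinarith
  exact absurd h5 (not_le.2 h6)

end Pool.Agent.H45.SN
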