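import Pool.Agent.H87.SN.Targets

/-!
# The third energy estimate (row EN3)
-/

set_option autoImplicit false

namespace Pool.Agent.H45.SN

open Pool.Agent.H87.SN
open MeasureTheory Metric Set Filter Topology
open scoped ContDiff RealInnerProductSpace

theorem en3_continuous_rho {d : ℕ} : Continuous (fun x : E (d + 2) => rho x) := by
  unfold rho
  fun_prop

theorem en3_continuous_zp {d : ℕ} : Continuous (fun x : E (d + 2) => zp x) := by
  unfold zp
  fun_prop

theorem en3_rho_le_norm {d : ℕ} (x : E (d + 2)) : rho x ≤ ‖x‖ := by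
  unfold rho
  rw [EuclideanSpace.norm_eq]
  apply Real.sqrt_le_sqrt
  rw [Fin.sum_univ_succ, Fin.sum_univ_succ]
  simp only [Real.norm_eq_abs, sq_abs]
  have h1 : (0 : ℝ) ≤ ∑ i : Fin d, x i.succ.succ ^ 2 := Finset.sum_nonneg fun i _ => sq_nonneg _
  have h2 : (Fin.succ 0 : Fin (d + 2)) = 1 := rfl
  rw [h2]
  linarith

theorem en3_isOpen_neck {d : ℕ} (r : E d → ℝ) (hr : Continuous r) : IsOpen (neck r) := by
  have h1 : IsOpen {x : E (d + 2) | r (zp x) < rho x} :=
    isOpen_lt (hr.comp en3_continuous_zp) en3_continuous_rho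
  exact isOpen_ball.inter h1

theorem en3_nsq_nonneg {n : ℕ} {F : Type*} [NormedAddCommGroup F] [NormedSpace ℝ F]
    (L : E n →L[ℝ] F) : 0 ≤ nsq L := Finset.sum_nonneg fun i _ => sq_nonneg _

theorem en3_gsq_mul_le {n : ℕ} (f g : E n → ℝ) (x : E n) (hf : DifferentiableAt ℝ f x)
    (hg : DifferentiableAt ℝ g x) :
    gsq (fun y => f y * g y) x ≤ 2 * (f x ^ 2 * gsq g x) + 2 * (g x ^ 2 * gsq f x) := by
  unfold gsq nsq
  rw [Finset.mul_sum, Finset.mul_sum, Finset.mul_sum, Finset.mul_sum, ← Finset.sum_add_distrib]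
  apply Finset.sum_le_sum
  intro i _
  have h1 : fderiv ℝ (fun y => f y * g y) x = f x • fderiv ℝ g x + g x • fderiv ℝ f x :=
    fderiv_fun_mul hf hg
  rw [h1]
  simp only [add_apply, smul_apply, smul_eq_mul,
    Real.norm_eq_abs, sq_abs]
  nlinarith [sq_nonneg (f x * fderiv ℝ g x (bv i) - g x * fderiv ℝ f x (bv i))]

theorem en3_gsq_eq_zero_of_min {n : ℕ} (f : E n → ℝ) (x : E n) (h0 : f x = 0)
    (hn : ∀ y, 0 ≤ f y) : gsq f x = 0 := by
  have h1 : IsLocalMin f x := by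
    filter_upwards with y
    rw [h0]
    exact hn y
  unfold gsq nsq
  rw [h1.fderiv_eq_zero]
  simp

theorem en3_nsq_le {n : ℕ} {F : Type*} [NormedAddCommGroup F] [NormedSpace ℝ F]
    (L : E n →L[ℝ] F) : nsq L ≤ n * ‖L‖ ^ 2 := by
  have hbv : ∀ i : Fin n, ‖(bv i : E n)‖ = 1 := by
    intro i
    unfold bv
    rw [PiLp.norm_single]
    norm_num
  unfold nsq
  calc ∑ i : Fin n, ‖L (bv i)‖ ^ 2 ≤ ∑ _i : Fin n, ‖L‖ ^ 2 := by
        apply Finset.sum_le_sum
        intro i _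
        apply pow_le_pow_left₀ (norm_nonneg _)
        have h2 : ‖L (bv i)‖ ≤ ‖L‖ * ‖(bv i : E n)‖ := L.le_opNorm _
        rwa [hbv, mul_one] at h2
    _ = n * ‖L‖ ^ 2 := by
        rw [Finset.sum_const, Finset.card_univ, Fintype.card_fin, nsmul_eq_mul]

theorem en3_nsq_continuous {n : ℕ} {F : Type*} [NormedAddCommGroup F] [NormedSpace ℝ F] :
    Continuous (fun L : E n →L[ℝ] F => nsq L) := by
  unfold nsq
  fun_prop

theorem en3_integrable {d m : ℕ} (G : E (d + 2) → E (d + 2) →L[ℝ] E m) (k : E (d + 2) → ℝ)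
    (hG : MemLp G 2 (volume.restrict (ball (0 : E (d + 2)) 2))) (hk : Continuous k) :
    Integrable (fun x => k x * nsq (G x)) (volume.restrict (ball (0 : E (d + 2)) (5 / 4))) := by
  have hle : (volume.restrict (ball (0 : E (d + 2)) (5 / 4))) ≤
      volume.restrict (ball (0 : E (d + 2)) 2) :=
    Measure.restrict_mono (ball_subset_ball (by norm_num)) le_rfl
  have hG' : MemLp G 2 (volume.restrict (ball (0 : E (d + 2)) (5 / 4))) := hG.mono_measure hle
  have h1 : Integrable (fun x => ‖G x‖ ^ 2) (volume.restrict (ball (0 : E (d + 2)) (5 / 4))) :=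
    (memLp_two_iff_integrable_sq_norm hG'.1).1 hG'
  obtain ⟨c, hc⟩ := (isCompact_closedBall (0 : E (d + 2)) (5 / 4)).exists_bound_of_continuousOn
    hk.continuousOn
  have h2 : AEStronglyMeasurable (fun x => nsq (G x))
      (volume.restrict (ball (0 : E (d + 2)) (5 / 4))) :=
    Continuous.comp_aestronglyMeasurable (f := G) en3_nsq_continuous hG'.1
  apply Integrable.mono' (h1.const_mul (c * ((d + 2 : ℕ) : ℝ))) (hk.aestronglyMeasurable.mul h2)
  rw [ae_restrict_iff' measurableSet_ball]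
  filter_upwards with x hx
  have h3 : ‖k x‖ ≤ c := hc x (ball_subset_closedBall hx)
  change ‖k x * nsq (G x)‖ ≤ c * ((d + 2 : ℕ) : ℝ) * ‖G x‖ ^ 2
  rw [norm_mul, Real.norm_eq_abs (nsq (G x)), abs_of_nonneg (en3_nsq_nonneg _)]
  calc ‖k x‖ * nsq (G x) ≤ c * (((d + 2 : ℕ) : ℝ) * ‖G x‖ ^ 2) :=
        mul_le_mul h3 (en3_nsq_le _) (en3_nsq_nonneg _) ((norm_nonneg _).trans h3)
    _ = _ := by ring

theorem pf_EN3 (hCUT : T_CUT) (hINN : T_INN) (hHES : T_HES) (hEN2 : T_EN2) : T_EN3 := by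
  intro d C₀ C₁ M
  obtain ⟨ζ, L, hζs, hζ01, -, hζ1, hζ0, hL, hζg⟩ := hCUT (d + 2) 1 (5 / 4) one_pos (by norm_num)
  obtain ⟨C, hC, hin⟩ := hINN d M
  obtain ⟨K, hK, hK2⟩ := hEN2 d C₀ C₁ M
  obtain ⟨B, hB⟩ : ∃ B : ℝ, B = 1 + (2 * C + 2 * (4 * L ^ 2)) := ⟨_, rfl⟩
  have hB0 : 0 ≤ B := by
    rw [hB]
    positivity
  refine ⟨40 * (B * |C₁| * K), by positivity, ?_⟩
  intro r hr hr0 hrM η w hW m u G hN
  obtain ⟨χi, hχ1, hχ01, -, hχ0, hχone, hχg, -⟩ := hin r hr hr0 hrM
  have hE2 := hK2 r hr hr0 hrM η w hW m u G hN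
  have hζ1' : ContDiff ℝ 1 ζ := hζs.of_le (by exact_mod_cast le_top)
  -- the cutoff
  obtain ⟨χ, hχ⟩ : ∃ χ : E (d + 2) → ℝ, χ = fun x => ζ x * χi x := ⟨_, rfl⟩
  have hχd : ContDiff ℝ 1 χ := by
    rw [hχ]
    exact hζ1'.mul hχ1
  have hχnn : ∀ x, 0 ≤ χ x := by
    intro x
    rw [hχ]
    exact mul_nonneg (hζ01 x).1 (hχ01 x).1
  have hχle : ∀ x, χ x ≤ 1 := by
    intro x
    rw [hχ]
    exact mul_le_one₀ (hζ01 x).2 (hχ01 x).1 (hχ01 x).2
  have hχz : ∀ x, ¬ (‖x‖ < 5 / 4 ∧ 9 / 8 * r (zp x) < rho x) → χ x = 0 := by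
    intro x hx
    rw [hχ]
    change ζ x * χi x = 0
    by_cases h1 : ‖x‖ < 5 / 4
    · have h2 : rho x ≤ 9 / 8 * r (zp x) := not_lt.1 (fun h => hx ⟨h1, h⟩)
      rw [hχ0 x h2, mul_zero]
    · rw [hζ0 x (not_lt.1 h1), zero_mul]
  have hgz : ∀ x, ¬ (‖x‖ < 5 / 4 ∧ 9 / 8 * r (zp x) < rho x) → gsq χ x = 0 :=
    fun x hx => en3_gsq_eq_zero_of_min χ x (hχz x hx) hχnn
  have hrc : Continuous r := hr.continuous
  have hsub : tsupport χ ⊆ closedBall 0 (5 / 4) ∩ {x | 9 / 8 * r (zp x) ≤ rho x} := by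
    apply closure_minimal
    · intro x hx
      by_contra hcon
      apply hx
      apply hχz
      rintro ⟨h1, h2⟩
      exact hcon ⟨mem_closedBall_zero_iff.2 h1.le, h2.le⟩
    · exact isClosed_closedBall.inter
        (isClosed_le (continuous_const.mul (hrc.comp en3_continuous_zp)) en3_continuous_rho)
  have hneck : closedBall 0 (5 / 4) ∩ {x | 9 / 8 * r (zp x) ≤ rho x} ⊆ neck r := by
    rintro x ⟨h1, h2⟩
    have h3 : 9 / 8 * r (zp x) ≤ rho x := h2
    have h4 := hr0 (zp x)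
    exact ⟨closedBall_subset_ball (by norm_num) h1, by linarith⟩
  have hcomp : HasCompactSupport χ :=
    (isCompact_closedBall (0 : E (d + 2)) (5 / 4)).of_isClosed_subset (isClosed_tsupport χ)
      (hsub.trans inter_subset_left)
  have hU : IsOpen (neck r) := en3_isOpen_neck r hrc
  have hρU : ∀ x ∈ neck r, 0 < rho x := fun x hx => (hr0 _).trans hx.2
  have hwU : ContDiffOn ℝ 1 w (neck r) := hW.w_C1.mono (fun x hx => hρU x hx)
  have hwpos : ∀ x ∈ neck r, 0 < w x := fun x hx => hW.w_pos x (hρU x hx)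
  have hH := hHES d m (neck r) u w χ hU hρU hN.smooth hN.orth hN.lapb hwU hwpos
    (fun x hx => hW.P6 x hx.1 hx.2) hχd hcomp (hsub.trans hneck)
  -- the right-hand side
  have hkc : Continuous (kap η) := by
    have h1 : Continuous (fun x => fderiv ℝ η x (Pm d x)) :=
      (hW.eta_C1.continuous_fderiv one_ne_zero).clm_apply (Pm d).continuous
    exact h1.neg
  have hae : ∀ᵐ x : E (d + 2), x ∈ neck r → G x = fderiv ℝ u x :=
    (ae_restrict_iff' hU.measurableSet).1 hN.ae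
  have hmemneck : ∀ x : E (d + 2), ‖x‖ < 5 / 4 → 9 / 8 * r (zp x) < rho x → x ∈ neck r :=
    fun x h1 h2 => hneck ⟨mem_closedBall_zero_iff.2 h1.le, h2.le⟩
  have hRHS : ∫ x, (χ x ^ 2 + rho x ^ 2 * gsq χ x) * w x * nsq (fderiv ℝ u x) ≤
      B * |C₁| * ∫ x in ball (0 : E (d + 2)) (5 / 4), kap η x * nsq (G x) := by
    rw [← integral_const_mul, ← integral_indicator measurableSet_ball]
    apply integral_mono_of_nonneg
    · filter_upwards with x
      by_cases hx : ‖x‖ < 5 / 4 ∧ 9 / 8 * r (zp x) < rho x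
      · have h1 := hwpos x (hmemneck x hx.1 hx.2)
        have h2 : 0 ≤ gsq χ x := en3_nsq_nonneg _
        have h3 : 0 ≤ nsq (fderiv ℝ u x) := en3_nsq_nonneg _
        change (0 : ℝ) ≤ (χ x ^ 2 + rho x ^ 2 * gsq χ x) * w x * nsq (fderiv ℝ u x)
        positivity
      · change (0 : ℝ) ≤ (χ x ^ 2 + rho x ^ 2 * gsq χ x) * w x * nsq (fderiv ℝ u x)
        rw [hχz x hx, hgz x hx]
        simp
    · rw [integrable_indicator_iff measurableSet_ball]
      exact (en3_integrable G (kap η) hN.memG hkc).const_mul _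
    · filter_upwards [hae] with x hGx
      by_cases hx : ‖x‖ < 5 / 4 ∧ 9 / 8 * r (zp x) < rho x
      · have hxn := hmemneck x hx.1 hx.2
        have h1 := hwpos x hxn
        have h3 : 0 ≤ nsq (fderiv ℝ u x) := en3_nsq_nonneg _
        have hxb : x ∈ ball (0 : E (d + 2)) (5 / 4) := mem_ball_zero_iff.2 hx.1
        have hk0 : 0 ≤ kap η x := hW.kap_nonneg x hxn.1
        rw [indicator_of_mem hxb, hGx hxn]
        have h4 : w x ≤ C₁ * kap η x := hW.P5b x hxn.1 hxn.2.le
        have h5 : w x ≤ |C₁| * kap η x :=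
          h4.trans (mul_le_mul_of_nonneg_right (le_abs_self _) hk0)
        have h6 : χ x ^ 2 + rho x ^ 2 * gsq χ x ≤ B := by
          have h7 : χ x ^ 2 ≤ 1 := pow_le_one₀ (hχnn x) (hχle x)
          have h8 : gsq χ x ≤ 2 * (ζ x ^ 2 * gsq χi x) + 2 * (χi x ^ 2 * gsq ζ x) := by
            rw [hχ]
            exact en3_gsq_mul_le ζ χi x (hζ1'.differentiable one_ne_zero x)
              (hχ1.differentiable one_ne_zero x)
          have h9 : ζ x ^ 2 ≤ 1 := pow_le_one₀ (hζ01 x).1 (hζ01 x).2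
          have h10 : χi x ^ 2 ≤ 1 := pow_le_one₀ (hχ01 x).1 (hχ01 x).2
          have h11 : rho x ^ 2 * gsq χi x ≤ C := hχg x
          have h12 : gsq ζ x ≤ L ^ 2 := hζg x
          have h13 : 0 ≤ gsq χi x := en3_nsq_nonneg _
          have h14 : 0 ≤ gsq ζ x := en3_nsq_nonneg _
          have h15 : rho x ^ 2 ≤ 4 := by
            have h16 := en3_rho_le_norm x
            have h17 : 0 ≤ rho x := (hρU x hxn).le
            nlinarith [hx.1]
          have h18 : rho x ^ 2 * (ζ x ^ 2 * gsq χi x) ≤ C := by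
            calc rho x ^ 2 * (ζ x ^ 2 * gsq χi x) = ζ x ^ 2 * (rho x ^ 2 * gsq χi x) := by ring
              _ ≤ 1 * (rho x ^ 2 * gsq χi x) := by gcongr
              _ ≤ C := by
                rw [one_mul]
                exact h11
          have h19 : rho x ^ 2 * (χi x ^ 2 * gsq ζ x) ≤ 4 * L ^ 2 := by
            calc rho x ^ 2 * (χi x ^ 2 * gsq ζ x) ≤ 4 * (1 * L ^ 2) := by gcongr
              _ = 4 * L ^ 2 := by ring
          have h20 : rho x ^ 2 * gsq χ x ≤
              rho x ^ 2 * (2 * (ζ x ^ 2 * gsq χi x) + 2 * (χi x ^ 2 * gsq ζ x)) := by gcongr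
          rw [hB]
          nlinarith
        calc (χ x ^ 2 + rho x ^ 2 * gsq χ x) * w x * nsq (fderiv ℝ u x)
            ≤ B * (|C₁| * kap η x) * nsq (fderiv ℝ u x) := by gcongr
          _ = B * |C₁| * (kap η x * nsq (fderiv ℝ u x)) := by ring
      · rw [hχz x hx, hgz x hx]
        have h0 : ((0 : ℝ) ^ 2 + rho x ^ 2 * 0) * w x * nsq (fderiv ℝ u x) = 0 := by ring
        rw [h0]
        apply indicator_nonneg
        intro y hy
        have hk0 : 0 ≤ kap η y := hW.kap_nonneg y (ball_subset_ball (by norm_num) hy)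
        have := en3_nsq_nonneg (G y)
        positivity
  -- the left-hand side
  have hhc : ContinuousOn (hsq u) (neck r) := by
    have h1 : ContDiffOn ℝ 1 (fderiv ℝ u) (neck r) := by
      have h0 : ContDiffOn ℝ ∞ (fderiv ℝ u) (neck r) := hN.smooth.fderiv_of_isOpen hU le_rfl
      exact h0.of_le (by exact_mod_cast le_top)
    have h2 : ContinuousOn (fderiv ℝ (fderiv ℝ u)) (neck r) :=
      h1.continuousOn_fderiv_of_isOpen hU le_rfl
    unfold hsq
    fun_prop
  have hnn : ∀ x, 0 ≤ χ x ^ 2 * rho x ^ 2 * w x * hsq u x := by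
    intro x
    have h1 : 0 ≤ hsq u x :=
      Finset.sum_nonneg fun i _ => Finset.sum_nonneg fun j _ => sq_nonneg _
    by_cases hx : ‖x‖ < 5 / 4 ∧ 9 / 8 * r (zp x) < rho x
    · have h2 := hwpos x (hmemneck x hx.1 hx.2)
      positivity
    · rw [hχz x hx]
      simp
  have hint : Integrable (fun x => χ x ^ 2 * rho x ^ 2 * w x * hsq u x) := by
    have hts : tsupport (fun x => χ x ^ 2 * rho x ^ 2 * w x * hsq u x) ⊆ tsupport χ := by
      apply closure_mono
      intro x hx hx0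
      apply hx
      change χ x ^ 2 * rho x ^ 2 * w x * hsq u x = 0
      rw [hx0]
      ring
    apply Continuous.integrable_of_hasCompactSupport
    · apply ContinuousOn.continuous_of_tsupport_subset (s := neck r) _ hU
        (hts.trans (hsub.trans hneck))
      have h1 : ContinuousOn χ (neck r) := hχd.continuous.continuousOn
      have h2 : ContinuousOn (fun x : E (d + 2) => rho x) (neck r) :=
        en3_continuous_rho.continuousOn
      exact (((h1.pow 2).mul (h2.pow 2)).mul hwU.continuousOn).mul hhc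
    · exact hcomp.of_isClosed_subset (isClosed_tsupport _) hts
  have hSo : IsOpen {x : E (d + 2) | x ∈ ball (0 : E (d + 2)) 1 ∧ 2 * r (zp x) < rho x} :=
    isOpen_ball.inter
      (isOpen_lt (continuous_const.mul (hrc.comp en3_continuous_zp)) en3_continuous_rho)
  calc ∫⁻ x in {x | x ∈ ball (0 : E (d + 2)) 1 ∧ 2 * r (zp x) < rho x},
      ENNReal.ofReal (rho x ^ 2 * w x * hsq u x)
      = ∫⁻ x in {x | x ∈ ball (0 : E (d + 2)) 1 ∧ 2 * r (zp x) < rho x},
        ENNReal.ofReal (χ x ^ 2 * rho x ^ 2 * w x * hsq u x) := by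
        apply setLIntegral_congr_fun hSo.measurableSet
        intro x hx
        have h1 : χ x = 1 := by
          rw [hχ]
          change ζ x * χi x = 1
          rw [hζ1 x (mem_ball_zero_iff.1 hx.1).le, hχone x hx.2.le, one_mul]
        change ENNReal.ofReal (rho x ^ 2 * w x * hsq u x) =
          ENNReal.ofReal (χ x ^ 2 * rho x ^ 2 * w x * hsq u x)
        rw [h1]
        norm_num
    _ ≤ ∫⁻ x, ENNReal.ofReal (χ x ^ 2 * rho x ^ 2 * w x * hsq u x) :=
        setLIntegral_le_lintegral _ _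
    _ = ENNReal.ofReal (∫ x, χ x ^ 2 * rho x ^ 2 * w x * hsq u x) :=
        (ofReal_integral_eq_lintegral_ofReal hint (Eventually.of_forall hnn)).symm
    _ ≤ _ := by
        apply ENNReal.ofReal_le_ofReal
        calc ∫ x, χ x ^ 2 * rho x ^ 2 * w x * hsq u x
            ≤ 40 * ∫ x, (χ x ^ 2 + rho x ^ 2 * gsq χ x) * w x * nsq (fderiv ℝ u x) := hH
          _ ≤ 40 * (B * |C₁| * ∫ x in ball (0 : E (d + 2)) (5 / 4), kap η x * nsq (G x)) := by
              gcongr
          _ ≤ 40 * (B * |C₁| * (K * ∫ x in ball (0 : E (d + 2)) 2, nsq (G x))) := by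
              gcongr
          _ = _ := by ring

end Pool.Agent.H45.SN
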