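import Pool.Agent.H87.SN.Targets

/-!
# Bounds of the kernel (row KER)
-/

set_option autoImplicit false

namespace Pool.Agent.H45.SN

open Pool.Agent.H87.SN
open MeasureTheory Metric Set Filter Topology
open scoped ContDiff RealInnerProductSpace

theorem ker_den_pos {s : ℝ} (τ : ℝ) (hs : 0 < s) : 0 < s ^ 2 + τ ^ 2 / 100 := by positivity

/-- a bound for the derivative of the power -/
theorem ker_bound {D s N b : ℝ} (hs : 0 < s) (hD : 0 < D) (hN : |N| ≤ b * D) :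
    |s * (N / D ^ 2 * (3 / 2 : ℝ) * (s / D) ^ ((3 / 2 : ℝ) - 1))| ≤
      (3 / 2 * b) * (s / D) ^ (3 / 2 : ℝ) := by
  have hq0 : 0 < s / D := div_pos hs hD
  have h1 : (s / D) ^ (3 / 2 : ℝ) = (s / D) * (s / D) ^ ((3 / 2 : ℝ) - 1) := by
    have h2 := Real.rpow_add hq0 1 ((3 / 2 : ℝ) - 1)
    rw [Real.rpow_one] at h2
    rw [← h2]
    norm_num
  obtain ⟨T, hT⟩ : ∃ T, T = (s / D) ^ ((3 / 2 : ℝ) - 1) := ⟨_, rfl⟩
  have h3 : 0 < T := by
    rw [hT]
    exact Real.rpow_pos_of_pos hq0 _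
  rw [h1, ← hT]
  have h4 : s * (N / D ^ 2 * (3 / 2 : ℝ) * T) = N * (s / D ^ 2 * ((3 / 2 : ℝ) * T)) := by ring
  have h6 : 0 < s / D ^ 2 * ((3 / 2 : ℝ) * T) := by positivity
  rw [h4, abs_mul, abs_of_pos h6]
  calc |N| * (s / D ^ 2 * ((3 / 2 : ℝ) * T)) ≤ b * D * (s / D ^ 2 * ((3 / 2 : ℝ) * T)) :=
        mul_le_mul_of_nonneg_right hN h6.le
    _ = 3 / 2 * b * (s / D * T) := by
        field_simp

theorem pf_KER : T_KER := by
  refine ⟨fun s τ hs => ?_, ?_, fun s τ hs => ?_, fun s τ hs => ?_⟩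
  · exact Real.rpow_pos_of_pos (div_pos hs (ker_den_pos τ hs)) _
  · intro p hp
    have hp' : 0 < p.1 := hp
    have hD := ker_den_pos p.2 hp'
    have h1 : ContDiffAt ℝ 1 (fun p : ℝ × ℝ => p.1 / (p.1 ^ 2 + p.2 ^ 2 / 100)) p := by
      apply ContDiffAt.div contDiffAt_fst _ hD.ne'
      exact (contDiffAt_fst.pow 2).add ((contDiffAt_snd.pow 2).div_const 100)
    have h2 : ContDiffAt ℝ 1 (fun p : ℝ × ℝ => (p.1 / (p.1 ^ 2 + p.2 ^ 2 / 100)) ^ (3 / 2 : ℝ)) p :=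
      h1.rpow_const_of_ne (div_pos hp' hD).ne'
    exact h2.contDiffWithinAt
  · have hD := ker_den_pos τ hs
    have h0 : HasDerivAt (fun x : ℝ => x ^ 2 + τ ^ 2 / 100) (2 * s) s := by
      have h := (hasDerivAt_pow 2 s).add_const (τ ^ 2 / 100)
      have h' : ((2 : ℕ) : ℝ) * s ^ (2 - 1) = 2 * s := by norm_num
      rw [h'] at h
      exact h
    have h1 : HasDerivAt (fun x : ℝ => x / (x ^ 2 + τ ^ 2 / 100))
        ((1 * (s ^ 2 + τ ^ 2 / 100) - s * (2 * s)) / (s ^ 2 + τ ^ 2 / 100) ^ 2) s :=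
      (hasDerivAt_id s).div h0 hD.ne'
    have h2 := h1.rpow_const (p := (3 / 2 : ℝ)) (Or.inl (div_pos hs hD).ne')
    have h3 : deriv (fun x => kerJ x τ) s = _ := h2.deriv
    rw [h3]
    have h4 := ker_bound (s := s) (D := s ^ 2 + τ ^ 2 / 100) (b := 1)
      (N := 1 * (s ^ 2 + τ ^ 2 / 100) - s * (2 * s)) hs hD ?_
    · have h6 : (3 / 2 * 1 : ℝ) = 3 / 2 := by norm_num
      rw [h6] at h4
      exact h4
    · have h7 : (0 : ℝ) ≤ τ ^ 2 := sq_nonneg τ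
      have h8 : (0 : ℝ) ≤ s ^ 2 := sq_nonneg s
      rw [abs_le]
      constructor <;> nlinarith
  · have hD := ker_den_pos τ hs
    have h0 : HasDerivAt (fun y : ℝ => s ^ 2 + y ^ 2 / 100) (2 * τ / 100) τ := by
      have h := ((hasDerivAt_pow 2 τ).div_const 100).const_add (s ^ 2)
      have h' : ((2 : ℕ) : ℝ) * τ ^ (2 - 1) = 2 * τ := by norm_num
      rw [h'] at h
      exact h
    have h1 : HasDerivAt (fun y : ℝ => s / (s ^ 2 + y ^ 2 / 100))
        ((0 * (s ^ 2 + τ ^ 2 / 100) - s * (2 * τ / 100)) / (s ^ 2 + τ ^ 2 / 100) ^ 2) τ :=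
      (hasDerivAt_const τ s).div h0 hD.ne'
    have h2 := h1.rpow_const (p := (3 / 2 : ℝ)) (Or.inl (div_pos hs hD).ne')
    have h3 : deriv (fun y => kerJ s y) τ = _ := h2.deriv
    rw [h3]
    have h4 := ker_bound (s := s) (D := s ^ 2 + τ ^ 2 / 100) (b := 1 / 10)
      (N := 0 * (s ^ 2 + τ ^ 2 / 100) - s * (2 * τ / 100)) hs hD ?_
    · have h6 : (3 / 2 * (1 / 10) : ℝ) = 3 / 20 := by norm_num
      rw [h6] at h4
      exact h4
    · rw [abs_le]
      have h7 := sq_nonneg (s - τ / 10)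
      have h8 := sq_nonneg (s + τ / 10)
      constructor <;> nlinarith

end Pool.Agent.H45.SN
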